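import Pool.Agent.J4H12.MX.Stm

set_option autoImplicit false

universe u

namespace Pool.Agent.J4H36.MX

open Pool.Agent.J4H12.MX
open scoped Pointwise

set_option linter.unusedSectionVars false

variable {G : Type u} [Group G] [TopologicalSpace G] [IsTopologicalGroup G] [CompactSpace G]
    [TotallyDisconnectedSpace G]

/-- The open normal subgroups have trivial intersection. -/
theorem eq_one_of_ON {x : G} (h : ∀ U : Subgroup G, ON U → x ∈ U) : x = 1 := by
  by_contra hx
  obtain ⟨H, hH⟩ := ProfiniteGrp.exist_openNormalSubgroup_sub_open_nhds_of_one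
    (G := G) (U := {x}ᶜ) (isOpen_compl_singleton) (by
      simp only [Set.mem_compl_iff, Set.mem_singleton_iff]
      exact fun h => hx h.symm)
  have h1 : x ∈ H.toSubgroup := h _ ⟨H.isNormal', H.isOpen'⟩
  exact hH h1 rfl

theorem le_normalizer_of_Nz {P M : Subgroup G} (h : Nz P M) : P ≤ Subgroup.normalizer (M : Set G) := by
  intro x hx
  rw [Subgroup.mem_normalizer_iff]
  intro m
  constructor
  · intro hm
    exact h x hx m hm
  · intro hm
    have := h x⁻¹ (P.inv_mem hx) _ hm
    simpa [mul_assoc] using this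

/-- The partial products of the tower. -/
def H (Q : ℕ → Subgroup G) : ℕ → Subgroup G
  | 0 => Q 0
  | n + 1 => H Q n ⊔ Q (n + 1)

theorem H_mono (Q : ℕ → Subgroup G) : Monotone (H Q) :=
  monotone_nat_of_le_succ (fun _ => le_sup_left)

theorem H_le (Q : ℕ → Subgroup G) (hN : ∀ j k, j < k → Nz (Q j) (Q k)) (n k : ℕ) (h : n < k) :
    H Q n ≤ Subgroup.normalizer (Q k : Set G) := by
  induction n with
  | zero => exact le_normalizer_of_Nz (hN 0 k h)
  | succ n ih => exact sup_le (ih (by omega)) (le_normalizer_of_Nz (hN (n + 1) k h))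

theorem H_closed (Q : ℕ → Subgroup G) (hN : ∀ j k, j < k → Nz (Q j) (Q k))
    (hc : ∀ i, IsClosed (Q i : Set G)) (n : ℕ) : IsClosed (H Q n : Set G) := by
  induction n with
  | zero => exact hc 0
  | succ n ih =>
    have : ((H Q n ⊔ Q (n + 1) : Subgroup G) : Set G) = (H Q n : Set G) * (Q (n + 1) : Set G) :=
      Subgroup.coe_mul_of_left_le_normalizer_right _ _ (H_le Q hN n (n + 1) (by omega))
    show IsClosed ((H Q n ⊔ Q (n + 1) : Subgroup G) : Set G)
    rw [this]
    exact (ih.isCompact.mul (hc _).isCompact).isClosed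

theorem H_ord (q : ℕ → ℕ) (Q : ℕ → Subgroup G) (hq : ∀ i, (q i).Prime)
    (hinj : Function.Injective q) (hN : ∀ j k, j < k → Nz (Q j) (Q k))
    (hp : ∀ i, ProP (q i) (Q i)) (n : ℕ) :
    ∀ x ∈ H Q n, ∀ U : Subgroup G, ON U → ∃ m : ℕ, (∀ j, n < j → Nat.Coprime m (q j)) ∧
      x ^ m ∈ U := by
  induction n with
  | zero =>
    intro x hx U hU
    obtain ⟨k, hk⟩ := hp 0 x hx U hU
    refine ⟨q 0 ^ k, ?_, hk⟩
    intro j hj
    apply Nat.Coprime.pow_left
    rw [Nat.coprime_primes (hq 0) (hq j)]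
    intro h
    have := hinj h
    omega
  | succ n ih =>
    intro x hx U hU
    have hle := H_le Q hN n (n + 1) (by omega)
    have hset : ((H Q n ⊔ Q (n + 1) : Subgroup G) : Set G)
        = (H Q n : Set G) * (Q (n + 1) : Set G) :=
      Subgroup.coe_mul_of_left_le_normalizer_right _ _ hle
    have hx' : x ∈ (H Q n : Set G) * (Q (n + 1) : Set G) := by
      rw [← hset]; exact hx
    obtain ⟨h, hh, y, hy, rfl⟩ := Set.mem_mul.1 hx'
    obtain ⟨m, hm, hmU⟩ := ih h hh U hU
    -- (h y)^m = h^m y'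
    have key : ∀ m : ℕ, ∃ y' ∈ Q (n + 1), (h * y) ^ m = h ^ m * y' := by
      intro m
      induction m with
      | zero => exact ⟨1, Subgroup.one_mem _, by simp⟩
      | succ m ihm =>
        obtain ⟨y', hy', he⟩ := ihm
        refine ⟨(h⁻¹ * y' * h) * y, ?_, ?_⟩
        · refine Subgroup.mul_mem _ ?_ hy
          have h1 : h⁻¹ ∈ Subgroup.normalizer (Q (n + 1) : Set G) :=
            Subgroup.inv_mem _ (hle hh)
          rw [Subgroup.mem_normalizer_iff] at h1
          have h2 := (h1 y').1 hy'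
          simpa using h2
        · rw [pow_succ, he, pow_succ]
          group
    obtain ⟨y', hy', he⟩ := key m
    obtain ⟨k, hk⟩ := hp (n + 1) y' hy' U hU
    refine ⟨m * q (n + 1) ^ k, ?_, ?_⟩
    · intro j hj
      apply Nat.Coprime.mul_left (hm j (by omega))
      apply Nat.Coprime.pow_left
      rw [Nat.coprime_primes (hq _) (hq j)]
      intro h
      have := hinj h
      omega
    · haveI := hU.1
      rw [pow_mul, he]
      rw [← QuotientGroup.eq_one_iff] at hk hmU ⊢
      rw [QuotientGroup.mk_pow, QuotientGroup.mk_mul, hmU, one_mul, ← QuotientGroup.mk_pow, hk]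

theorem t_CHN : S_CHN.{u} := by
  intro G _ _ _ _ _ q Q hq hinj hc hp hne hN hmax
  obtain ⟨n, hn⟩ := hmax (H Q) (H_mono Q) (H_closed Q hN hc) (fun _ => le_top)
  have h1 : H Q (n + 1) = H Q n := hn (n + 1) (by omega)
  have h2 : Q (n + 1) ≤ H Q n := by
    rw [← h1]; exact le_sup_right
  apply hne (n + 1)
  rw [Subgroup.eq_bot_iff_forall]
  intro x hx
  apply eq_one_of_ON
  intro U hU
  obtain ⟨m, hm, hmU⟩ := H_ord q Q hq hinj hN hp n x (h2 hx) U hU
  obtain ⟨k, hk⟩ := hp (n + 1) x hx U hU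
  have hcop : Nat.Coprime m (q (n + 1) ^ k) := Nat.Coprime.pow_right _ (hm (n + 1) (by omega))
  haveI := hU.1
  rw [← QuotientGroup.eq_one_iff] at hk hmU ⊢
  rw [QuotientGroup.mk_pow] at hk hmU
  have := Nat.dvd_gcd (orderOf_dvd_of_pow_eq_one hmU) (orderOf_dvd_of_pow_eq_one hk)
  rw [hcop.gcd_eq_one] at this
  exact orderOf_eq_one_iff.1 (Nat.dvd_one.1 this)

end Pool.Agent.J4H36.MX
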