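import Pool.Agent.J4H12.MX.Stm2
import Pool.Agent.J4H12.MX.Main

set_option autoImplicit false

universe u

namespace Pool.Agent.J4H36.MX

open Pool.Agent.J4H12.MX

set_option linter.unusedSectionVars false

variable {G : Type u} [Group G] [TopologicalSpace G] [IsTopologicalGroup G] [CompactSpace G]
    [TotallyDisconnectedSpace G]

/-- A closed subgroup `K` of a pro-`p` group `H` with `K U ≠ H U` is contained in a closed normal
subgroup of `H` of index `p` that contains `H ∩ U`. -/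
theorem exists_max {p : ℕ} (hp : p.Prime) {H K U : Subgroup G} (hH : IsClosed (H : Set G))
    (hpH : ProP p H) (hK : K ≤ H) (hU : ON U) (h : ¬ H ≤ K ⊔ U) :
    ∃ M : Subgroup G, K ≤ M ∧ U ⊓ H ≤ M ∧ M ≤ H ∧ IsClosed (M : Set G) ∧ M.relIndex H = p ∧
      Nz H M := by
  have hUn := hU.1
  haveI : Fact p.Prime := ⟨hp⟩
  haveI : Finite (G ⧸ U) := Subgroup.quotient_finite_of_isOpen U hU.2
  haveI : U.FiniteIndex := Subgroup.finiteIndex_of_finite_quotient
  have hQ : IsPGroup p (H ⧸ (U.subgroupOf H)) := by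
    intro q
    obtain ⟨x, rfl⟩ := QuotientGroup.mk_surjective q
    obtain ⟨k, hk⟩ := hpH x x.2 U hU
    refine ⟨k, ?_⟩
    rw [← QuotientGroup.mk_pow, QuotientGroup.eq_one_iff]
    exact Subgroup.mem_subgroupOf.2 hk
  haveI : Finite (H ⧸ (U.subgroupOf H)) := Subgroup.finite_quotient_of_finiteIndex
  obtain ⟨a, ha⟩ := IsPGroup.iff_card.1 hQ
  set K1 : Subgroup (H ⧸ (U.subgroupOf H)) :=
    (K.subgroupOf H).map (QuotientGroup.mk' (U.subgroupOf H)) with hK1
  have hK1t : K1 ≠ ⊤ := by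
    intro he
    apply h
    intro x hx
    have h1 : (QuotientGroup.mk' (U.subgroupOf H) ⟨x, hx⟩) ∈ K1 := by rw [he]; trivial
    obtain ⟨k, hk, hkx⟩ := Subgroup.mem_map.1 h1
    have h2 := QuotientGroup.eq.1 hkx
    have h3 : (k : G)⁻¹ * x ∈ U := by
      have := Subgroup.mem_subgroupOf.1 h2
      simpa using this
    have h4 : x = (k : G) * ((k : G)⁻¹ * x) := by group
    rw [h4]
    exact Subgroup.mul_mem_sup (Subgroup.mem_subgroupOf.1 hk) h3
  obtain ⟨b, hb⟩ := IsPGroup.iff_card.1 (hQ.to_subgroup K1)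
  have hba : b < a := by
    have h1 : p ^ b ∣ p ^ a := by
      rw [← ha, ← hb]; exact Subgroup.card_subgroup_dvd_card K1
    have h2 : b ≤ a := (Nat.pow_dvd_pow_iff_le_right hp.one_lt).1 h1
    rcases h2.lt_or_eq with h3 | h3
    · exact h3
    · exfalso
      apply hK1t
      apply Subgroup.eq_top_of_card_eq
      rw [hb, ha, h3]
  obtain ⟨K2, hc, hle⟩ := Sylow.exists_subgroup_card_pow_prime_le p (n := b) (m := a - 1)
    (by rw [ha]; exact pow_dvd_pow _ (by omega)) K1 hb (by omega)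
  have hidx : K2.index = p := by
    have h1 := K2.card_mul_index
    rw [hc, ha] at h1
    have h2 : p ^ a = p ^ (a - 1) * p := by
      rw [← pow_succ]; congr 1; omega
    rw [h2] at h1
    exact Nat.eq_of_mul_eq_mul_left (pow_pos hp.pos _) h1
  have hn : K2.Normal := by
    apply Subgroup.normal_of_index_eq_minFac_card
    rw [hidx, ha, Nat.Prime.pow_minFac hp (by omega)]
  set M0 : Subgroup H := K2.comap (QuotientGroup.mk' (U.subgroupOf H)) with hM0
  have hmem : ∀ x : G, x ∈ M0.map H.subtype ↔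
      ∃ hx : x ∈ H, (QuotientGroup.mk' (U.subgroupOf H) ⟨x, hx⟩) ∈ K2 := by
    intro x
    constructor
    · rintro ⟨y, hy, rfl⟩
      exact ⟨y.2, hy⟩
    · rintro ⟨hx, h2⟩
      exact ⟨⟨x, hx⟩, h2, rfl⟩
  have hMH : M0.map H.subtype ≤ H := fun x hx => ((hmem x).1 hx).1
  have hUM : U ⊓ H ≤ M0.map H.subtype := by
    intro x hx
    refine (hmem x).2 ⟨hx.2, ?_⟩
    have : (QuotientGroup.mk' (U.subgroupOf H) ⟨x, hx.2⟩) = 1 := by
      rw [QuotientGroup.mk'_apply, QuotientGroup.eq_one_iff]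
      exact Subgroup.mem_subgroupOf.2 hx.1
    rw [this]
    exact K2.one_mem
  refine ⟨M0.map H.subtype, ?_, hUM, hMH, ?_, ?_, ?_⟩
  · intro x hx
    exact (hmem x).2 ⟨hK hx, hle (Subgroup.mem_map_of_mem _ (Subgroup.mem_subgroupOf.2 hx))⟩
  · have he : ((M0.map H.subtype : Subgroup G) : Set G)
        = (H : Set G) ∩ ((M0.map H.subtype ⊔ U : Subgroup G) : Set G) := by
      ext x
      constructor
      · intro hx
        exact ⟨hMH hx, (le_sup_left : M0.map H.subtype ≤ _) hx⟩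
      · rintro ⟨hx, hx2⟩
        obtain ⟨m, hm, u, hu, rfl⟩ := Subgroup.mem_sup_of_normal_right.1 hx2
        refine Subgroup.mul_mem _ hm (hUM ⟨hu, ?_⟩)
        exact (Subgroup.mul_mem_cancel_left _ (hMH hm)).1 hx
    rw [he]
    exact hH.inter (Subgroup.isClosed_of_isOpen _ (Subgroup.isOpen_mono le_sup_right hU.2))
  · have : (M0.map H.subtype).subgroupOf H = M0 :=
      Subgroup.comap_map_eq_self_of_injective H.subtype_injective M0
    rw [Subgroup.relIndex, this, hM0, Subgroup.index_comap_of_surjective _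
      (QuotientGroup.mk'_surjective _), hidx]
  · intro x hx m hm
    obtain ⟨hmH, hm2⟩ := (hmem m).1 hm
    refine (hmem _).2 ⟨H.mul_mem (H.mul_mem hx hmH) (H.inv_mem hx), ?_⟩
    have := hn.conj_mem _ hm2 (QuotientGroup.mk' (U.subgroupOf H) ⟨x, hx⟩)
    rw [← map_mul, ← map_inv, ← map_mul] at this
    exact this

theorem t_FGM : S_PHF.{u} → S_FGM.{u} := by
  intro hPHF G _ _ _ _ _ p P hp hP hpP hfg f hf hfc hfP
  set H : Subgroup G := (⨆ n, f n).topologicalClosure with hHdef
  have hHc : IsClosed (H : Set G) := Subgroup.isClosed_topologicalClosure _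
  have hHP : H ≤ P := Subgroup.topologicalClosure_minimal _ (iSup_le hfP) hP
  have hfH : ∀ n, f n ≤ H := fun n =>
    (le_iSup f n).trans (Subgroup.le_topologicalClosure _)
  have hpH : ProP p H := fun x hx => hpP x (hHP hx)
  obtain ⟨N, hN, hNM⟩ := hPHF G p H hp hHc hpH (hfg H hHc hHP)
  have hNn := hN.1
  -- some `f n` maps onto `H / (H ∩ N)`
  have hcov : ∃ n, H ≤ f n ⊔ N := by
    have h1 : (H : Set G) ⊆ ⋃ n, ((f n ⊔ N : Subgroup G) : Set G) := by
      intro x hx
      have hx' : x ∈ closure ((⨆ n, f n : Subgroup G) : Set G) := hx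
      have hopen : IsOpen ((fun y => y⁻¹ * x) ⁻¹' (N : Set G)) :=
        hN.2.preimage (by fun_prop)
      obtain ⟨y, hyN, hy⟩ := mem_closure_iff.1 hx' _ hopen (by simp)
      have hy2 : y ∈ (⨆ n, f n : Subgroup G) := hy
      rw [Subgroup.mem_iSup_of_directed hf.directed_le] at hy2
      obtain ⟨n, hn⟩ := hy2
      refine Set.mem_iUnion.2 ⟨n, ?_⟩
      have h4 : x = y * (y⁻¹ * x) := by group
      show x ∈ f n ⊔ N
      rw [h4]
      exact Subgroup.mul_mem_sup hn hyN
    obtain ⟨n, hn⟩ := hHc.isCompact.elim_directed_cover _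
      (fun n => Subgroup.isOpen_mono (le_sup_right : N ≤ f n ⊔ N) hN.2) h1
      (by
        refine directed_of_isDirected_le ?_
        intro i j hij
        exact (sup_le_sup_right (hf hij) N : f i ⊔ N ≤ f j ⊔ N))
    exact ⟨n, hn⟩
  obtain ⟨n, hn⟩ := hcov
  have key : H ≤ f n := by
    intro x hx
    apply mem_of_forall (hfc n)
    intro U hU
    by_contra hcon
    obtain ⟨M, h1, h2, h3, h4, h5, h6⟩ := exists_max hp hHc hpH (hfH n) hU
      (fun hle => hcon (hle hx))
    have h7 := hNM M h4 h3 h5 h6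
    have h8 : H ≤ M := by
      intro y hy
      obtain ⟨a, ha, b, hb, rfl⟩ := Subgroup.mem_sup_of_normal_right.1 (hn hy)
      refine M.mul_mem (h1 ha) (h7 ⟨hb, ?_⟩)
      exact (Subgroup.mul_mem_cancel_left _ (hfH n ha)).1 hy
    rw [le_antisymm h3 h8, Subgroup.relIndex_self] at h5
    exact hp.one_lt.ne h5
  exact ⟨n, fun m hm => le_antisymm ((hfH m).trans key) (hf hm)⟩

end Pool.Agent.J4H36.MX
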