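import Pool.Agent.J4H12.MX.Stm

set_option autoImplicit false

universe u

namespace Pool.Agent.J4H36.MX

open Pool.Agent.J4H12.MX
open scoped Pointwise

set_option linter.unusedSectionVars false

variable {G : Type u} [Group G] [TopologicalSpace G] [IsTopologicalGroup G] [CompactSpace G]
    [TotallyDisconnectedSpace G]

/-- the conjugate `l P l⁻¹` -/
def cj (l : G) (P : Subgroup G) : Subgroup G := P.map (MulAut.conj l).toMonoidHom

theorem mem_cj {l : G} {P : Subgroup G} {x : G} : x ∈ cj l P ↔ l⁻¹ * x * l ∈ P := by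
  unfold cj
  constructor
  · rintro ⟨y, hy, rfl⟩
    simpa [mul_assoc] using hy
  · intro h
    exact ⟨_, h, by simp [mul_assoc]⟩

theorem cj_closed (l : G) {P : Subgroup G} (hP : IsClosed (P : Set G)) :
    IsClosed (cj l P : Set G) := by
  have : (cj l P : Set G) = (fun x => l⁻¹ * x * l) ⁻¹' (P : Set G) := by
    ext x
    exact mem_cj
  rw [this]
  exact hP.preimage (by fun_prop)

theorem Syl_cj {p : ℕ} {L D P : Subgroup G} (hD : Nz L D) (hDL : D ≤ L) (h : Syl p D P) {l : G}
    (hl : l ∈ L) : Syl p D (cj l P) where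
  closed := cj_closed l h.closed
  le := by
    intro x hx
    have h1 := h.le (mem_cj.1 hx)
    have := hD l hl _ h1
    simpa [mul_assoc] using this
  prop := by
    intro x hx U hU
    obtain ⟨k, hk⟩ := h.prop _ (mem_cj.1 hx) U hU
    refine ⟨k, ?_⟩
    have h1 : (l⁻¹ * x * l) ^ p ^ k = l⁻¹ * x ^ p ^ k * l := by
      have := conj_pow (i := p ^ k) (a := l⁻¹) (b := x)
      simpa using this
    rw [h1] at hk
    have := hU.1.conj_mem _ hk l
    simpa [mul_assoc] using this
  idx := by
    intro U hU hdvd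
    apply h.idx U hU
    haveI := hU.1
    have hDc : cj l D = D := by
      ext x
      rw [mem_cj]
      constructor
      · intro hx
        have := hD l hl _ hx
        simpa [mul_assoc] using this
      · intro hx
        have := hD l⁻¹ (L.inv_mem hl) _ hx
        simpa [mul_assoc] using this
    have hUc : cj l U = U := by
      ext x
      rw [mem_cj]
      constructor
      · intro hx
        have := hU.1.conj_mem _ hx l
        simpa [mul_assoc] using this
      · intro hx
        have := hU.1.conj_mem _ hx l⁻¹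
        simpa [mul_assoc] using this
    have h1 : cj l P ⊔ U = cj l (P ⊔ U) := by
      conv_lhs => rw [← hUc]
      unfold cj
      rw [← Subgroup.map_sup]
    rw [h1] at hdvd
    have h2 : (cj l (P ⊔ U)).relIndex D = (P ⊔ U).relIndex D := by
      conv_lhs => rw [← hDc]
      unfold cj
      exact Subgroup.relIndex_map_map_of_injective _ _ (MulAut.conj l).injective
    rwa [h2] at hdvd

theorem t_FRA : S_CNJ.{u} → S_FRA.{u} := by
  intro hC G _ _ _ _ _ p L D P hp hL hDc hDL hN hS l hl
  obtain ⟨k, hk, hx⟩ := hC G p D P (cj l P) hp hDc hS (Syl_cj hN hDL hS hl)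
  refine ⟨k, hk, k⁻¹ * l, L.mul_mem (L.inv_mem (hDL hk)) hl, by group, ?_⟩
  intro x
  have h1 := hx (l * x * l⁻¹)
  rw [mem_cj] at h1
  have h2 : l⁻¹ * (l * x * l⁻¹) * l = x := by group
  have h3 : k⁻¹ * (l * x * l⁻¹) * k = (k⁻¹ * l) * x * (k⁻¹ * l)⁻¹ := by group
  rw [h2, h3] at h1
  exact h1

end Pool.Agent.J4H36.MX
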